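import Mathlib

/-!
# MP_a37635_nt : no three preperiodic points of `z ^ 2 + z` sum to `1`
-/

set_option autoImplicit false

namespace Pool.Agent.Results.MP_a37635_nt.NoSumOne

open Polynomial

/-- `x` is preperiodic for `f(z) = z ^ 2 + z`: `f^m(x) = f^n(x)` for some `0 ≤ m < n`. -/
def Preperiodic {F : Type*} [Field F] (x : F) : Prop :=
  ∃ m n : ℕ, m < n ∧ (fun z : F => z ^ 2 + z)^[m] x = (fun z : F => z ^ 2 + z)^[n] x

/-- The iterates as integral polynomials. -/
noncomputable def it (n : ℕ) : ℤ[X] := (fun p : ℤ[X] => p ^ 2 + p)^[n] X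

lemma it_succ (n : ℕ) : it (n + 1) = it n ^ 2 + it n := by
  unfold it
  rw [Function.iterate_succ_apply']

lemma aeval_it {F : Type*} [Field F] (x : F) (n : ℕ) :
    aeval x (it n) = (fun z : F => z ^ 2 + z)^[n] x := by
  induction n with
  | zero => simp [it]
  | succ n ih => rw [it_succ, Function.iterate_succ_apply', ← ih]; simp

lemma it_monic_natDegree (n : ℕ) : (it n).Monic ∧ (it n).natDegree = 2 ^ n := by
  induction n with
  | zero => exact ⟨by simp [it, monic_X], by simp [it]⟩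
  | succ n ih =>
    have hm : (it n ^ 2).Monic := ih.1.pow 2
    have hd : (it n ^ 2).natDegree = 2 ^ (n + 1) := by
      rw [ih.1.natDegree_pow, ih.2]; ring
    have hlt : (it n).degree < (it n ^ 2).degree := by
      rw [degree_eq_natDegree ih.1.ne_zero, degree_eq_natDegree hm.ne_zero, hd, ih.2]
      exact_mod_cast Nat.pow_lt_pow_right (by norm_num) (Nat.lt_succ_self n)
    rw [it_succ]
    refine ⟨hm.add_of_left hlt, ?_⟩
    rw [natDegree_add_eq_left_of_degree_lt hlt, hd]

lemma integral_of_preperiodic {F : Type*} [Field F] {x : F} (h : Preperiodic x) :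
    IsIntegral ℤ x := by
  obtain ⟨m, n, hmn, h⟩ := h
  refine ⟨it n - it m, ?_, ?_⟩
  · apply (it_monic_natDegree n).1.sub_of_left
    rw [degree_eq_natDegree (it_monic_natDegree n).1.ne_zero,
      degree_eq_natDegree (it_monic_natDegree m).1.ne_zero, (it_monic_natDegree n).2,
      (it_monic_natDegree m).2]
    exact_mod_cast Nat.pow_lt_pow_right (by norm_num) hmn
  · have := aeval_it x n
    have h2 := aeval_it x m
    rw [← aeval_def, map_sub, this, h2, h, sub_self]

lemma preperiodic_map {F E : Type*} [Field F] [Field E] (σ : F →+* E) {x : F}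
    (h : Preperiodic x) : Preperiodic (σ x) := by
  obtain ⟨m, n, hmn, h⟩ := h
  have key : ∀ k, (fun z : E => z ^ 2 + z)^[k] (σ x) = σ ((fun z : F => z ^ 2 + z)^[k] x) := by
    intro k
    induction k with
    | zero => rfl
    | succ k ih => rw [Function.iterate_succ_apply', Function.iterate_succ_apply', ih]; simp
  exact ⟨m, n, hmn, by rw [key, key, h]⟩

/-- The escape radius. -/
noncomputable def R : ℝ := (1 + Real.sqrt 2) / 2

lemma R_sq : R ^ 2 = R + 1 / 4 := by
  unfold R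
  have : Real.sqrt 2 ^ 2 = 2 := Real.sq_sqrt (by norm_num)
  nlinarith [this]

lemma R_pos : 0 < R := by unfold R; positivity

lemma R_lt : R < 4 / 3 := by
  unfold R
  have : Real.sqrt 2 < 1.5 := by
    rw [Real.sqrt_lt' (by norm_num)]; norm_num
  linarith

lemma escape_step {x : ℂ} (h : R < ‖x + 1 / 2‖) : ‖x + 1 / 2‖ < ‖(x ^ 2 + x) + 1 / 2‖ := by
  have e : (x ^ 2 + x) + 1 / 2 = (x + 1 / 2) ^ 2 + 1 / 4 := by ring
  have h1 : ‖x + 1 / 2‖ ^ 2 - 1 / 4 ≤ ‖(x ^ 2 + x) + 1 / 2‖ := by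
    rw [e]
    have := norm_sub_le ((x + 1 / 2) ^ 2 + 1 / 4) (1 / 4 : ℂ)
    rw [add_sub_cancel_right, norm_pow] at this
    have h4 : ‖(1 / 4 : ℂ)‖ = 1 / 4 := by simp
    rw [h4] at this
    linarith
  have h2 : ‖x + 1 / 2‖ < ‖x + 1 / 2‖ ^ 2 - 1 / 4 := by
    have hR := R_sq
    have hp := R_pos
    nlinarith [mul_pos (sub_pos.mpr h) (by linarith : 0 < ‖x + 1 / 2‖ + R - 1 + (1 - R)) ,
      sub_pos.mpr h, show (1 : ℝ) < R by
        unfold R
        have : (1 : ℝ) < Real.sqrt 2 := by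
          rw [Real.lt_sqrt (by norm_num)]; norm_num
        linarith]
  linarith

lemma bound_of_preperiodic {x : ℂ} (h : Preperiodic x) : ‖x + 1 / 2‖ ≤ R := by
  by_contra hc
  push Not at hc
  obtain ⟨m, n, hmn, h⟩ := h
  set f : ℂ → ℂ := fun z => z ^ 2 + z with hf
  have h1 : ∀ k, R < ‖f^[k] x + 1 / 2‖ ∧ ‖f^[k] x + 1 / 2‖ < ‖f^[k + 1] x + 1 / 2‖ := by
    intro k
    induction k with
    | zero => exact ⟨hc, escape_step hc⟩
    | succ k ih =>
      have : R < ‖f^[k + 1] x + 1 / 2‖ := ih.1.trans ih.2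
      refine ⟨this, ?_⟩
      rw [Function.iterate_succ_apply' f (k + 1)]
      exact escape_step this
  have hmono : StrictMono fun k => ‖f^[k] x + 1 / 2‖ := strictMono_nat_of_lt_succ fun k => (h1 k).2
  have := hmono hmn
  simp only [h] at this
  exact lt_irrefl _ this

lemma sq_add_re {x : ℂ} (h : Preperiodic x) : ‖x‖ ^ 2 + x.re ≤ R := by
  have h1 := bound_of_preperiodic h
  have h2 : ‖x + 1 / 2‖ ^ 2 ≤ R ^ 2 := by
    apply pow_le_pow_left₀ (norm_nonneg _) h1
  rw [R_sq] at h2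
  have h3 : ‖x + 1 / 2‖ ^ 2 = ‖x‖ ^ 2 + x.re + 1 / 4 := by
    rw [← Complex.normSq_eq_norm_sq, ← Complex.normSq_eq_norm_sq, Complex.normSq_apply,
      Complex.normSq_apply]
    simp
    ring
  linarith

lemma trace_bound {L : Type*} [Field L] [NumberField L] {x : L} (h : Preperiodic x) :
    ∑ σ : L →ₐ[ℚ] ℂ, (σ x).re ≤ (R - 1) * Module.finrank ℚ L := by
  have hcard : (Fintype.card (L →ₐ[ℚ] ℂ) : ℝ) = Module.finrank ℚ L := by
    rw [AlgHom.card]
  by_cases hx : x = 0
  · subst hx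
    simp only [map_zero, Complex.zero_re, Finset.sum_const_zero]
    apply mul_nonneg _ (Nat.cast_nonneg _)
    unfold R
    have : (1 : ℝ) < Real.sqrt 2 := by
      rw [Real.lt_sqrt (by norm_num)]; norm_num
    linarith
  · have hint : IsIntegral ℤ x := integral_of_preperiodic h
    have hN : IsIntegral ℤ (Algebra.norm ℚ x) := Algebra.isIntegral_norm ℚ hint
    obtain ⟨k, hk⟩ := (IsIntegrallyClosed.isIntegral_iff).mp hN
    have hk0 : k ≠ 0 := by
      rintro rfl
      apply hx
      rw [map_zero] at hk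
      exact (Algebra.norm_eq_zero_iff).mp hk.symm
    have hprod : ∏ σ : L →ₐ[ℚ] ℂ, ‖σ x‖ = |(k : ℝ)| := by
      rw [← norm_prod, ← Algebra.norm_eq_prod_embeddings ℚ ℂ x, ← hk]
      simp
    have hne : ∀ σ : L →ₐ[ℚ] ℂ, ‖σ x‖ ≠ 0 := by
      intro σ
      simpa using hx
    have hlog : 0 ≤ ∑ σ : L →ₐ[ℚ] ℂ, Real.log (‖σ x‖ ^ 2) := by
      rw [← Real.log_prod (fun σ _ => pow_ne_zero 2 (hne σ)), Finset.prod_pow, hprod]
      apply Real.log_nonneg
      have : (1 : ℝ) ≤ |(k : ℝ)| := by exact_mod_cast Int.one_le_abs hk0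
      nlinarith
    have h1 : ∀ σ : L →ₐ[ℚ] ℂ, (σ x).re ≤ (R - 1) - Real.log (‖σ x‖ ^ 2) := by
      intro σ
      have h2 := sq_add_re (preperiodic_map (σ : L →+* ℂ) h)
      have h3 := Real.log_le_sub_one_of_pos (lt_of_le_of_ne (sq_nonneg _)
        (pow_ne_zero 2 (hne σ)).symm)
      have h2' : ‖σ x‖ ^ 2 + (σ x).re ≤ R := h2
      linarith
    calc ∑ σ : L →ₐ[ℚ] ℂ, (σ x).re ≤ ∑ σ : L →ₐ[ℚ] ℂ, ((R - 1) - Real.log (‖σ x‖ ^ 2)) :=
          Finset.sum_le_sum fun σ _ => h1 σ
      _ = (R - 1) * Module.finrank ℚ L - ∑ σ : L →ₐ[ℚ] ℂ, Real.log (‖σ x‖ ^ 2) := by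
          rw [Finset.sum_sub_distrib, Finset.sum_const, Finset.card_univ, nsmul_eq_mul, hcard]
          ring
      _ ≤ _ := by linarith

/-- No three preperiodic points of `z ^ 2 + z` in the algebraic closure of `ℚ`, distinct or not,
have sum `1`. -/
theorem result : ∀ a b c : AlgebraicClosure ℚ, Preperiodic a → Preperiodic b → Preperiodic c →
    a + b + c ≠ 1 := by
  intro a b c ha hb hc habc
  let L : IntermediateField ℚ (AlgebraicClosure ℚ) := IntermediateField.adjoin ℚ {a, b, c}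
  have hfin : FiniteDimensional ℚ L := by
    apply IntermediateField.finiteDimensional_adjoin
    intro x hx
    have : IsIntegral ℤ x := by
      simp only [Set.mem_insert_iff, Set.mem_singleton_iff] at hx
      rcases hx with rfl | rfl | rfl
      · exact integral_of_preperiodic ha
      · exact integral_of_preperiodic hb
      · exact integral_of_preperiodic hc
    exact this.tower_top
  have : NumberField L := ⟨⟩
  have hmem : ∀ x ∈ ({a, b, c} : Set (AlgebraicClosure ℚ)), x ∈ L := fun x hx =>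
    IntermediateField.subset_adjoin ℚ _ hx
  let a' : L := ⟨a, hmem a (by simp)⟩
  let b' : L := ⟨b, hmem b (by simp)⟩
  let c' : L := ⟨c, hmem c (by simp)⟩
  have hpre : ∀ x : L, Preperiodic (x : AlgebraicClosure ℚ) → Preperiodic x := by
    rintro x ⟨m, n, hmn, h⟩
    have key : ∀ k, (fun z : AlgebraicClosure ℚ => z ^ 2 + z)^[k] (x : AlgebraicClosure ℚ) =
        (((fun z : L => z ^ 2 + z)^[k] x : L) : AlgebraicClosure ℚ) := by
      intro k
      induction k with
      | zero => rfl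
      | succ k ih => rw [Function.iterate_succ_apply', Function.iterate_succ_apply', ih]; simp
    refine ⟨m, n, hmn, ?_⟩
    rw [key, key] at h
    exact Subtype.ext h
  have hsum : a' + b' + c' = 1 := Subtype.ext habc
  have h1 := trace_bound (hpre a' ha)
  have h2 := trace_bound (hpre b' hb)
  have h3 := trace_bound (hpre c' hc)
  have hcard : (Fintype.card (L →ₐ[ℚ] ℂ) : ℝ) = Module.finrank ℚ L := by
    rw [AlgHom.card]
  have hpos : (0 : ℝ) < Module.finrank ℚ L := by exact_mod_cast Module.finrank_pos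
  have h4 : ∑ σ : L →ₐ[ℚ] ℂ, (σ a').re + ∑ σ : L →ₐ[ℚ] ℂ, (σ b').re +
      ∑ σ : L →ₐ[ℚ] ℂ, (σ c').re = Module.finrank ℚ L := by
    rw [← Finset.sum_add_distrib, ← Finset.sum_add_distrib, ← hcard, Fintype.card,
      Finset.card_eq_sum_ones]
    push_cast
    apply Finset.sum_congr rfl
    intro σ _
    rw [← Complex.add_re, ← Complex.add_re, ← map_add, ← map_add, hsum]
    simp
  have h5 : 3 * (R - 1) < 1 := by linarith [R_lt]
  nlinarith

end Pool.Agent.Results.MP_a37635_nt.NoSumOne
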